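import Pool.Agent.Work.MP_f94384_co.Big.R3.Dat
import Pool.Agent.Work.MP_f94384_co.Big.Rng
set_option autoImplicit false
set_option maxRecDepth 1000000
set_option linter.all false

/-! Checks of the certificate (generated) -/

namespace Pool.Agent.Work.MP_f94384_co.Big.R3

theorem g1_34 : allL (fun k => (cG dt) (Nat.add 34 k)) 5 = true := by decide +kernel
theorem g1_39 : allL (fun k => (cG dt) (Nat.add 39 k)) 5 = true := by decide +kernel
theorem g1_44 : allL (fun k => (cG dt) (Nat.add 44 k)) 5 = true := by decide +kernel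
theorem g1_49 : allL (fun k => (cG dt) (Nat.add 49 k)) 5 = true := by decide +kernel
theorem g1_54 : allL (fun k => (cG dt) (Nat.add 54 k)) 5 = true := by decide +kernel
theorem g1_59 : allL (fun k => (cG dt) (Nat.add 59 k)) 5 = true := by decide +kernel
theorem g1_64 : allL (fun k => (cG dt) (Nat.add 64 k)) 4 = true := by decide +kernel
theorem g1 : Rng (cG dt) 34 68 := ((((((rng_of (f := cG dt) g1_34 rfl).app (rng_of g1_39 rfl)).app (rng_of g1_44 rfl)).app (rng_of g1_49 rfl)).app (rng_of g1_54 rfl)).app (rng_of g1_59 rfl)).app (rng_of g1_64 rfl)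

end Pool.Agent.Work.MP_f94384_co.Big.R3
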