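import Pool.Agent.Work.MP_f94384_co.Big.R3.Dat
import Pool.Agent.Work.MP_f94384_co.Big.Rng
set_option autoImplicit false
set_option maxRecDepth 1000000
set_option linter.all false

/-! Checks of the certificate (generated) -/

namespace Pool.Agent.Work.MP_f94384_co.Big.R3

theorem g10_342 : allL (fun k => (cG dt) (Nat.add 342 k)) 5 = true := by decide +kernel
theorem g10_347 : allL (fun k => (cG dt) (Nat.add 347 k)) 5 = true := by decide +kernel
theorem g10_352 : allL (fun k => (cG dt) (Nat.add 352 k)) 5 = true := by decide +kernel
theorem g10_357 : allL (fun k => (cG dt) (Nat.add 357 k)) 5 = true := by decide +kernel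
theorem g10_362 : allL (fun k => (cG dt) (Nat.add 362 k)) 5 = true := by decide +kernel
theorem g10_367 : allL (fun k => (cG dt) (Nat.add 367 k)) 5 = true := by decide +kernel
theorem g10_372 : allL (fun k => (cG dt) (Nat.add 372 k)) 4 = true := by decide +kernel
theorem g10 : Rng (cG dt) 342 376 := ((((((rng_of (f := cG dt) g10_342 rfl).app (rng_of g10_347 rfl)).app (rng_of g10_352 rfl)).app (rng_of g10_357 rfl)).app (rng_of g10_362 rfl)).app (rng_of g10_367 rfl)).app (rng_of g10_372 rfl)

end Pool.Agent.Work.MP_f94384_co.Big.R3
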