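import Pool.Agent.Work.MP_f94384_co.Big.R3.Dat
import Pool.Agent.Work.MP_f94384_co.Big.Rng
set_option autoImplicit false
set_option maxRecDepth 1000000
set_option linter.all false

/-! Checks of the certificate (generated) -/

namespace Pool.Agent.Work.MP_f94384_co.Big.R3

theorem g11_376 : allL (fun k => (cG dt) (Nat.add 376 k)) 5 = true := by decide +kernel
theorem g11_381 : allL (fun k => (cG dt) (Nat.add 381 k)) 5 = true := by decide +kernel
theorem g11_386 : allL (fun k => (cG dt) (Nat.add 386 k)) 5 = true := by decide +kernel
theorem g11_391 : allL (fun k => (cG dt) (Nat.add 391 k)) 5 = true := by decide +kernel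
theorem g11_396 : allL (fun k => (cG dt) (Nat.add 396 k)) 5 = true := by decide +kernel
theorem g11_401 : allL (fun k => (cG dt) (Nat.add 401 k)) 5 = true := by decide +kernel
theorem g11_406 : allL (fun k => (cG dt) (Nat.add 406 k)) 5 = true := by decide +kernel
theorem g11 : Rng (cG dt) 376 411 := ((((((rng_of (f := cG dt) g11_376 rfl).app (rng_of g11_381 rfl)).app (rng_of g11_386 rfl)).app (rng_of g11_391 rfl)).app (rng_of g11_396 rfl)).app (rng_of g11_401 rfl)).app (rng_of g11_406 rfl)

end Pool.Agent.Work.MP_f94384_co.Big.R3
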