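import Pool.Agent.Work.MP_f94384_co.Big.R3.Dat
import Pool.Agent.Work.MP_f94384_co.Big.Rng
set_option autoImplicit false
set_option maxRecDepth 1000000
set_option linter.all false

/-! Checks of the certificate (generated) -/

namespace Pool.Agent.Work.MP_f94384_co.Big.R3

theorem g12_411 : allL (fun k => (cG dt) (Nat.add 411 k)) 5 = true := by decide +kernel
theorem g12_416 : allL (fun k => (cG dt) (Nat.add 416 k)) 5 = true := by decide +kernel
theorem g12_421 : allL (fun k => (cG dt) (Nat.add 421 k)) 5 = true := by decide +kernel
theorem g12_426 : allL (fun k => (cG dt) (Nat.add 426 k)) 5 = true := by decide +kernel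
theorem g12_431 : allL (fun k => (cG dt) (Nat.add 431 k)) 5 = true := by decide +kernel
theorem g12_436 : allL (fun k => (cG dt) (Nat.add 436 k)) 5 = true := by decide +kernel
theorem g12_441 : allL (fun k => (cG dt) (Nat.add 441 k)) 4 = true := by decide +kernel
theorem g12 : Rng (cG dt) 411 445 := ((((((rng_of (f := cG dt) g12_411 rfl).app (rng_of g12_416 rfl)).app (rng_of g12_421 rfl)).app (rng_of g12_426 rfl)).app (rng_of g12_431 rfl)).app (rng_of g12_436 rfl)).app (rng_of g12_441 rfl)

end Pool.Agent.Work.MP_f94384_co.Big.R3
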