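import Pool.Agent.Work.MP_f94384_co.Big.R3.Dat
import Pool.Agent.Work.MP_f94384_co.Big.Rng
set_option autoImplicit false
set_option maxRecDepth 1000000
set_option linter.all false

/-! Checks of the certificate (generated) -/

namespace Pool.Agent.Work.MP_f94384_co.Big.R3

theorem g13_445 : allL (fun k => (cG dt) (Nat.add 445 k)) 5 = true := by decide +kernel
theorem g13_450 : allL (fun k => (cG dt) (Nat.add 450 k)) 5 = true := by decide +kernel
theorem g13_455 : allL (fun k => (cG dt) (Nat.add 455 k)) 5 = true := by decide +kernel
theorem g13_460 : allL (fun k => (cG dt) (Nat.add 460 k)) 5 = true := by decide +kernel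
theorem g13_465 : allL (fun k => (cG dt) (Nat.add 465 k)) 5 = true := by decide +kernel
theorem g13_470 : allL (fun k => (cG dt) (Nat.add 470 k)) 5 = true := by decide +kernel
theorem g13_475 : allL (fun k => (cG dt) (Nat.add 475 k)) 4 = true := by decide +kernel
theorem g13 : Rng (cG dt) 445 479 := ((((((rng_of (f := cG dt) g13_445 rfl).app (rng_of g13_450 rfl)).app (rng_of g13_455 rfl)).app (rng_of g13_460 rfl)).app (rng_of g13_465 rfl)).app (rng_of g13_470 rfl)).app (rng_of g13_475 rfl)

end Pool.Agent.Work.MP_f94384_co.Big.R3
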