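import Pool.Agent.Work.MP_f94384_co.Big.R3.Dat
import Pool.Agent.Work.MP_f94384_co.Big.Rng
set_option autoImplicit false
set_option maxRecDepth 1000000
set_option linter.all false

/-! Checks of the certificate (generated) -/

namespace Pool.Agent.Work.MP_f94384_co.Big.R3

theorem g14_479 : allL (fun k => (cG dt) (Nat.add 479 k)) 5 = true := by decide +kernel
theorem g14_484 : allL (fun k => (cG dt) (Nat.add 484 k)) 5 = true := by decide +kernel
theorem g14_489 : allL (fun k => (cG dt) (Nat.add 489 k)) 5 = true := by decide +kernel
theorem g14_494 : allL (fun k => (cG dt) (Nat.add 494 k)) 5 = true := by decide +kernel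
theorem g14_499 : allL (fun k => (cG dt) (Nat.add 499 k)) 5 = true := by decide +kernel
theorem g14_504 : allL (fun k => (cG dt) (Nat.add 504 k)) 5 = true := by decide +kernel
theorem g14_509 : allL (fun k => (cG dt) (Nat.add 509 k)) 4 = true := by decide +kernel
theorem g14 : Rng (cG dt) 479 513 := ((((((rng_of (f := cG dt) g14_479 rfl).app (rng_of g14_484 rfl)).app (rng_of g14_489 rfl)).app (rng_of g14_494 rfl)).app (rng_of g14_499 rfl)).app (rng_of g14_504 rfl)).app (rng_of g14_509 rfl)

end Pool.Agent.Work.MP_f94384_co.Big.R3
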