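import Pool.Agent.Work.MP_f94384_co.Big.R3.Dat
import Pool.Agent.Work.MP_f94384_co.Big.Rng
set_option autoImplicit false
set_option maxRecDepth 1000000
set_option linter.all false

/-! Checks of the certificate (generated) -/

namespace Pool.Agent.Work.MP_f94384_co.Big.R3

theorem g15_513 : allL (fun k => (cG dt) (Nat.add 513 k)) 5 = true := by decide +kernel
theorem g15_518 : allL (fun k => (cG dt) (Nat.add 518 k)) 5 = true := by decide +kernel
theorem g15_523 : allL (fun k => (cG dt) (Nat.add 523 k)) 5 = true := by decide +kernel
theorem g15_528 : allL (fun k => (cG dt) (Nat.add 528 k)) 5 = true := by decide +kernel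
theorem g15_533 : allL (fun k => (cG dt) (Nat.add 533 k)) 5 = true := by decide +kernel
theorem g15_538 : allL (fun k => (cG dt) (Nat.add 538 k)) 5 = true := by decide +kernel
theorem g15_543 : allL (fun k => (cG dt) (Nat.add 543 k)) 5 = true := by decide +kernel
theorem g15 : Rng (cG dt) 513 548 := ((((((rng_of (f := cG dt) g15_513 rfl).app (rng_of g15_518 rfl)).app (rng_of g15_523 rfl)).app (rng_of g15_528 rfl)).app (rng_of g15_533 rfl)).app (rng_of g15_538 rfl)).app (rng_of g15_543 rfl)

end Pool.Agent.Work.MP_f94384_co.Big.R3
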