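import Pool.Agent.Work.MP_f94384_co.Big.R3.Dat
import Pool.Agent.Work.MP_f94384_co.Big.Rng
set_option autoImplicit false
set_option maxRecDepth 1000000
set_option linter.all false

/-! Checks of the certificate (generated) -/

namespace Pool.Agent.Work.MP_f94384_co.Big.R3

theorem g16_548 : allL (fun k => (cG dt) (Nat.add 548 k)) 5 = true := by decide +kernel
theorem g16_553 : allL (fun k => (cG dt) (Nat.add 553 k)) 5 = true := by decide +kernel
theorem g16_558 : allL (fun k => (cG dt) (Nat.add 558 k)) 5 = true := by decide +kernel
theorem g16_563 : allL (fun k => (cG dt) (Nat.add 563 k)) 5 = true := by decide +kernel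
theorem g16_568 : allL (fun k => (cG dt) (Nat.add 568 k)) 5 = true := by decide +kernel
theorem g16_573 : allL (fun k => (cG dt) (Nat.add 573 k)) 5 = true := by decide +kernel
theorem g16_578 : allL (fun k => (cG dt) (Nat.add 578 k)) 4 = true := by decide +kernel
theorem g16 : Rng (cG dt) 548 582 := ((((((rng_of (f := cG dt) g16_548 rfl).app (rng_of g16_553 rfl)).app (rng_of g16_558 rfl)).app (rng_of g16_563 rfl)).app (rng_of g16_568 rfl)).app (rng_of g16_573 rfl)).app (rng_of g16_578 rfl)

end Pool.Agent.Work.MP_f94384_co.Big.R3
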