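import Pool.Agent.Work.MP_f94384_co.Big.R3.Dat
import Pool.Agent.Work.MP_f94384_co.Big.Rng
set_option autoImplicit false
set_option maxRecDepth 1000000
set_option linter.all false

/-! Checks of the certificate (generated) -/

namespace Pool.Agent.Work.MP_f94384_co.Big.R3

theorem g17_582 : allL (fun k => (cG dt) (Nat.add 582 k)) 5 = true := by decide +kernel
theorem g17_587 : allL (fun k => (cG dt) (Nat.add 587 k)) 5 = true := by decide +kernel
theorem g17_592 : allL (fun k => (cG dt) (Nat.add 592 k)) 5 = true := by decide +kernel
theorem g17_597 : allL (fun k => (cG dt) (Nat.add 597 k)) 5 = true := by decide +kernel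
theorem g17_602 : allL (fun k => (cG dt) (Nat.add 602 k)) 5 = true := by decide +kernel
theorem g17_607 : allL (fun k => (cG dt) (Nat.add 607 k)) 5 = true := by decide +kernel
theorem g17_612 : allL (fun k => (cG dt) (Nat.add 612 k)) 4 = true := by decide +kernel
theorem g17 : Rng (cG dt) 582 616 := ((((((rng_of (f := cG dt) g17_582 rfl).app (rng_of g17_587 rfl)).app (rng_of g17_592 rfl)).app (rng_of g17_597 rfl)).app (rng_of g17_602 rfl)).app (rng_of g17_607 rfl)).app (rng_of g17_612 rfl)

end Pool.Agent.Work.MP_f94384_co.Big.R3
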