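import Pool.Agent.Work.MP_f94384_co.Big.R3.Dat
import Pool.Agent.Work.MP_f94384_co.Big.Rng
set_option autoImplicit false
set_option maxRecDepth 1000000
set_option linter.all false

/-! Checks of the certificate (generated) -/

namespace Pool.Agent.Work.MP_f94384_co.Big.R3

theorem g18_616 : allL (fun k => (cG dt) (Nat.add 616 k)) 5 = true := by decide +kernel
theorem g18_621 : allL (fun k => (cG dt) (Nat.add 621 k)) 5 = true := by decide +kernel
theorem g18_626 : allL (fun k => (cG dt) (Nat.add 626 k)) 5 = true := by decide +kernel
theorem g18_631 : allL (fun k => (cG dt) (Nat.add 631 k)) 5 = true := by decide +kernel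
theorem g18_636 : allL (fun k => (cG dt) (Nat.add 636 k)) 5 = true := by decide +kernel
theorem g18_641 : allL (fun k => (cG dt) (Nat.add 641 k)) 5 = true := by decide +kernel
theorem g18_646 : allL (fun k => (cG dt) (Nat.add 646 k)) 4 = true := by decide +kernel
theorem g18 : Rng (cG dt) 616 650 := ((((((rng_of (f := cG dt) g18_616 rfl).app (rng_of g18_621 rfl)).app (rng_of g18_626 rfl)).app (rng_of g18_631 rfl)).app (rng_of g18_636 rfl)).app (rng_of g18_641 rfl)).app (rng_of g18_646 rfl)

end Pool.Agent.Work.MP_f94384_co.Big.R3
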