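import Pool.Agent.Work.MP_f94384_co.Big.R3.Dat
import Pool.Agent.Work.MP_f94384_co.Big.Rng
set_option autoImplicit false
set_option maxRecDepth 1000000
set_option linter.all false

/-! Checks of the certificate (generated) -/

namespace Pool.Agent.Work.MP_f94384_co.Big.R3

theorem g2_68 : allL (fun k => (cG dt) (Nat.add 68 k)) 5 = true := by decide +kernel
theorem g2_73 : allL (fun k => (cG dt) (Nat.add 73 k)) 5 = true := by decide +kernel
theorem g2_78 : allL (fun k => (cG dt) (Nat.add 78 k)) 5 = true := by decide +kernel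
theorem g2_83 : allL (fun k => (cG dt) (Nat.add 83 k)) 5 = true := by decide +kernel
theorem g2_88 : allL (fun k => (cG dt) (Nat.add 88 k)) 5 = true := by decide +kernel
theorem g2_93 : allL (fun k => (cG dt) (Nat.add 93 k)) 5 = true := by decide +kernel
theorem g2_98 : allL (fun k => (cG dt) (Nat.add 98 k)) 4 = true := by decide +kernel
theorem g2 : Rng (cG dt) 68 102 := ((((((rng_of (f := cG dt) g2_68 rfl).app (rng_of g2_73 rfl)).app (rng_of g2_78 rfl)).app (rng_of g2_83 rfl)).app (rng_of g2_88 rfl)).app (rng_of g2_93 rfl)).app (rng_of g2_98 rfl)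

end Pool.Agent.Work.MP_f94384_co.Big.R3
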