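import Pool.Agent.Work.MP_f94384_co.Big.R3.Dat
import Pool.Agent.Work.MP_f94384_co.Big.Rng
set_option autoImplicit false
set_option maxRecDepth 1000000
set_option linter.all false

/-! Checks of the certificate (generated) -/

namespace Pool.Agent.Work.MP_f94384_co.Big.R3

theorem g3_102 : allL (fun k => (cG dt) (Nat.add 102 k)) 5 = true := by decide +kernel
theorem g3_107 : allL (fun k => (cG dt) (Nat.add 107 k)) 5 = true := by decide +kernel
theorem g3_112 : allL (fun k => (cG dt) (Nat.add 112 k)) 5 = true := by decide +kernel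
theorem g3_117 : allL (fun k => (cG dt) (Nat.add 117 k)) 5 = true := by decide +kernel
theorem g3_122 : allL (fun k => (cG dt) (Nat.add 122 k)) 5 = true := by decide +kernel
theorem g3_127 : allL (fun k => (cG dt) (Nat.add 127 k)) 5 = true := by decide +kernel
theorem g3_132 : allL (fun k => (cG dt) (Nat.add 132 k)) 5 = true := by decide +kernel
theorem g3 : Rng (cG dt) 102 137 := ((((((rng_of (f := cG dt) g3_102 rfl).app (rng_of g3_107 rfl)).app (rng_of g3_112 rfl)).app (rng_of g3_117 rfl)).app (rng_of g3_122 rfl)).app (rng_of g3_127 rfl)).app (rng_of g3_132 rfl)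

end Pool.Agent.Work.MP_f94384_co.Big.R3
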