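import Pool.Agent.Work.MP_f94384_co.Big.R3.Dat
import Pool.Agent.Work.MP_f94384_co.Big.Rng
set_option autoImplicit false
set_option maxRecDepth 1000000
set_option linter.all false

/-! Checks of the certificate (generated) -/

namespace Pool.Agent.Work.MP_f94384_co.Big.R3

theorem g4_137 : allL (fun k => (cG dt) (Nat.add 137 k)) 5 = true := by decide +kernel
theorem g4_142 : allL (fun k => (cG dt) (Nat.add 142 k)) 5 = true := by decide +kernel
theorem g4_147 : allL (fun k => (cG dt) (Nat.add 147 k)) 5 = true := by decide +kernel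
theorem g4_152 : allL (fun k => (cG dt) (Nat.add 152 k)) 5 = true := by decide +kernel
theorem g4_157 : allL (fun k => (cG dt) (Nat.add 157 k)) 5 = true := by decide +kernel
theorem g4_162 : allL (fun k => (cG dt) (Nat.add 162 k)) 5 = true := by decide +kernel
theorem g4_167 : allL (fun k => (cG dt) (Nat.add 167 k)) 4 = true := by decide +kernel
theorem g4 : Rng (cG dt) 137 171 := ((((((rng_of (f := cG dt) g4_137 rfl).app (rng_of g4_142 rfl)).app (rng_of g4_147 rfl)).app (rng_of g4_152 rfl)).app (rng_of g4_157 rfl)).app (rng_of g4_162 rfl)).app (rng_of g4_167 rfl)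

end Pool.Agent.Work.MP_f94384_co.Big.R3
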