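import Pool.Agent.Work.MP_f94384_co.Big.R3.Dat
import Pool.Agent.Work.MP_f94384_co.Big.Rng
set_option autoImplicit false
set_option maxRecDepth 1000000
set_option linter.all false

/-! Checks of the certificate (generated) -/

namespace Pool.Agent.Work.MP_f94384_co.Big.R3

theorem g5_171 : allL (fun k => (cG dt) (Nat.add 171 k)) 5 = true := by decide +kernel
theorem g5_176 : allL (fun k => (cG dt) (Nat.add 176 k)) 5 = true := by decide +kernel
theorem g5_181 : allL (fun k => (cG dt) (Nat.add 181 k)) 5 = true := by decide +kernel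
theorem g5_186 : allL (fun k => (cG dt) (Nat.add 186 k)) 5 = true := by decide +kernel
theorem g5_191 : allL (fun k => (cG dt) (Nat.add 191 k)) 5 = true := by decide +kernel
theorem g5_196 : allL (fun k => (cG dt) (Nat.add 196 k)) 5 = true := by decide +kernel
theorem g5_201 : allL (fun k => (cG dt) (Nat.add 201 k)) 4 = true := by decide +kernel
theorem g5 : Rng (cG dt) 171 205 := ((((((rng_of (f := cG dt) g5_171 rfl).app (rng_of g5_176 rfl)).app (rng_of g5_181 rfl)).app (rng_of g5_186 rfl)).app (rng_of g5_191 rfl)).app (rng_of g5_196 rfl)).app (rng_of g5_201 rfl)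

end Pool.Agent.Work.MP_f94384_co.Big.R3
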