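import Pool.Agent.Work.MP_f94384_co.Big.R3.Dat
import Pool.Agent.Work.MP_f94384_co.Big.Rng
set_option autoImplicit false
set_option maxRecDepth 1000000
set_option linter.all false

/-! Checks of the certificate (generated) -/

namespace Pool.Agent.Work.MP_f94384_co.Big.R3

theorem g6_205 : allL (fun k => (cG dt) (Nat.add 205 k)) 5 = true := by decide +kernel
theorem g6_210 : allL (fun k => (cG dt) (Nat.add 210 k)) 5 = true := by decide +kernel
theorem g6_215 : allL (fun k => (cG dt) (Nat.add 215 k)) 5 = true := by decide +kernel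
theorem g6_220 : allL (fun k => (cG dt) (Nat.add 220 k)) 5 = true := by decide +kernel
theorem g6_225 : allL (fun k => (cG dt) (Nat.add 225 k)) 5 = true := by decide +kernel
theorem g6_230 : allL (fun k => (cG dt) (Nat.add 230 k)) 5 = true := by decide +kernel
theorem g6_235 : allL (fun k => (cG dt) (Nat.add 235 k)) 4 = true := by decide +kernel
theorem g6 : Rng (cG dt) 205 239 := ((((((rng_of (f := cG dt) g6_205 rfl).app (rng_of g6_210 rfl)).app (rng_of g6_215 rfl)).app (rng_of g6_220 rfl)).app (rng_of g6_225 rfl)).app (rng_of g6_230 rfl)).app (rng_of g6_235 rfl)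

end Pool.Agent.Work.MP_f94384_co.Big.R3
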