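import Pool.Agent.Work.MP_f94384_co.Big.R3.Dat
import Pool.Agent.Work.MP_f94384_co.Big.Rng
set_option autoImplicit false
set_option maxRecDepth 1000000
set_option linter.all false

/-! Checks of the certificate (generated) -/

namespace Pool.Agent.Work.MP_f94384_co.Big.R3

theorem g7_239 : allL (fun k => (cG dt) (Nat.add 239 k)) 5 = true := by decide +kernel
theorem g7_244 : allL (fun k => (cG dt) (Nat.add 244 k)) 5 = true := by decide +kernel
theorem g7_249 : allL (fun k => (cG dt) (Nat.add 249 k)) 5 = true := by decide +kernel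
theorem g7_254 : allL (fun k => (cG dt) (Nat.add 254 k)) 5 = true := by decide +kernel
theorem g7_259 : allL (fun k => (cG dt) (Nat.add 259 k)) 5 = true := by decide +kernel
theorem g7_264 : allL (fun k => (cG dt) (Nat.add 264 k)) 5 = true := by decide +kernel
theorem g7_269 : allL (fun k => (cG dt) (Nat.add 269 k)) 5 = true := by decide +kernel
theorem g7 : Rng (cG dt) 239 274 := ((((((rng_of (f := cG dt) g7_239 rfl).app (rng_of g7_244 rfl)).app (rng_of g7_249 rfl)).app (rng_of g7_254 rfl)).app (rng_of g7_259 rfl)).app (rng_of g7_264 rfl)).app (rng_of g7_269 rfl)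

end Pool.Agent.Work.MP_f94384_co.Big.R3
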