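import Pool.Agent.Work.MP_f94384_co.Big.R3.Dat
import Pool.Agent.Work.MP_f94384_co.Big.Rng
set_option autoImplicit false
set_option maxRecDepth 1000000
set_option linter.all false

/-! Checks of the certificate (generated) -/

namespace Pool.Agent.Work.MP_f94384_co.Big.R3

theorem g8_274 : allL (fun k => (cG dt) (Nat.add 274 k)) 5 = true := by decide +kernel
theorem g8_279 : allL (fun k => (cG dt) (Nat.add 279 k)) 5 = true := by decide +kernel
theorem g8_284 : allL (fun k => (cG dt) (Nat.add 284 k)) 5 = true := by decide +kernel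
theorem g8_289 : allL (fun k => (cG dt) (Nat.add 289 k)) 5 = true := by decide +kernel
theorem g8_294 : allL (fun k => (cG dt) (Nat.add 294 k)) 5 = true := by decide +kernel
theorem g8_299 : allL (fun k => (cG dt) (Nat.add 299 k)) 5 = true := by decide +kernel
theorem g8_304 : allL (fun k => (cG dt) (Nat.add 304 k)) 4 = true := by decide +kernel
theorem g8 : Rng (cG dt) 274 308 := ((((((rng_of (f := cG dt) g8_274 rfl).app (rng_of g8_279 rfl)).app (rng_of g8_284 rfl)).app (rng_of g8_289 rfl)).app (rng_of g8_294 rfl)).app (rng_of g8_299 rfl)).app (rng_of g8_304 rfl)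

end Pool.Agent.Work.MP_f94384_co.Big.R3
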