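import Pool.Agent.Work.MP_f94384_co.Big.R3.Dat
import Pool.Agent.Work.MP_f94384_co.Big.Rng
set_option autoImplicit false
set_option maxRecDepth 1000000
set_option linter.all false

/-! Checks of the certificate (generated) -/

namespace Pool.Agent.Work.MP_f94384_co.Big.R3

theorem h2_60 : allL (fun k => (cH dt) (Nat.add 60 k)) 4 = true := by decide +kernel
theorem h2_64 : allL (fun k => (cH dt) (Nat.add 64 k)) 4 = true := by decide +kernel
theorem h2_68 : allL (fun k => (cH dt) (Nat.add 68 k)) 4 = true := by decide +kernel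
theorem h2_72 : allL (fun k => (cH dt) (Nat.add 72 k)) 4 = true := by decide +kernel
theorem h2_76 : allL (fun k => (cH dt) (Nat.add 76 k)) 4 = true := by decide +kernel
theorem h2_80 : allL (fun k => (cH dt) (Nat.add 80 k)) 4 = true := by decide +kernel
theorem h2_84 : allL (fun k => (cH dt) (Nat.add 84 k)) 4 = true := by decide +kernel
theorem h2_88 : allL (fun k => (cH dt) (Nat.add 88 k)) 2 = true := by decide +kernel
theorem h2 : Rng (cH dt) 60 90 := (((((((rng_of (f := cH dt) h2_60 rfl).app (rng_of h2_64 rfl)).app (rng_of h2_68 rfl)).app (rng_of h2_72 rfl)).app (rng_of h2_76 rfl)).app (rng_of h2_80 rfl)).app (rng_of h2_84 rfl)).app (rng_of h2_88 rfl)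

end Pool.Agent.Work.MP_f94384_co.Big.R3
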