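import Pool.Agent.Work.MP_f94384_co.Big.R3.Dat
import Pool.Agent.Work.MP_f94384_co.Big.Rng
set_option autoImplicit false
set_option maxRecDepth 1000000
set_option linter.all false

/-! Checks of the certificate (generated) -/

namespace Pool.Agent.Work.MP_f94384_co.Big.R3

theorem h3_90 : allL (fun k => (cH dt) (Nat.add 90 k)) 4 = true := by decide +kernel
theorem h3_94 : allL (fun k => (cH dt) (Nat.add 94 k)) 4 = true := by decide +kernel
theorem h3_98 : allL (fun k => (cH dt) (Nat.add 98 k)) 4 = true := by decide +kernel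
theorem h3_102 : allL (fun k => (cH dt) (Nat.add 102 k)) 4 = true := by decide +kernel
theorem h3_106 : allL (fun k => (cH dt) (Nat.add 106 k)) 4 = true := by decide +kernel
theorem h3_110 : allL (fun k => (cH dt) (Nat.add 110 k)) 4 = true := by decide +kernel
theorem h3_114 : allL (fun k => (cH dt) (Nat.add 114 k)) 4 = true := by decide +kernel
theorem h3_118 : allL (fun k => (cH dt) (Nat.add 118 k)) 2 = true := by decide +kernel
theorem h3 : Rng (cH dt) 90 120 := (((((((rng_of (f := cH dt) h3_90 rfl).app (rng_of h3_94 rfl)).app (rng_of h3_98 rfl)).app (rng_of h3_102 rfl)).app (rng_of h3_106 rfl)).app (rng_of h3_110 rfl)).app (rng_of h3_114 rfl)).app (rng_of h3_118 rfl)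

end Pool.Agent.Work.MP_f94384_co.Big.R3
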