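import Pool.Agent.Work.MP_f94384_co.Big.R3.Dat
import Pool.Agent.Work.MP_f94384_co.Big.Rng
set_option autoImplicit false
set_option maxRecDepth 1000000
set_option linter.all false

/-! Checks of the certificate (generated) -/

namespace Pool.Agent.Work.MP_f94384_co.Big.R3

theorem j_0 : allL (fun k => (cJ dt) (Nat.add 0 k)) 10 = true := by decide +kernel
theorem j_10 : allL (fun k => (cJ dt) (Nat.add 10 k)) 10 = true := by decide +kernel
theorem j_20 : allL (fun k => (cJ dt) (Nat.add 20 k)) 9 = true := by decide +kernel
theorem j : Rng (cJ dt) 0 29 := ((rng_of (f := cJ dt) j_0 rfl).app (rng_of j_10 rfl)).app (rng_of j_20 rfl)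
theorem bu_0 : allL (fun k => (cBU dt) (Nat.add 0 k)) 100 = true := by decide +kernel
theorem bu_100 : allL (fun k => (cBU dt) (Nat.add 100 k)) 100 = true := by decide +kernel
theorem bu_200 : allL (fun k => (cBU dt) (Nat.add 200 k)) 100 = true := by decide +kernel
theorem bu_300 : allL (fun k => (cBU dt) (Nat.add 300 k)) 100 = true := by decide +kernel
theorem bu_400 : allL (fun k => (cBU dt) (Nat.add 400 k)) 27 = true := by decide +kernel
theorem bu : Rng (cBU dt) 0 427 := ((((rng_of (f := cBU dt) bu_0 rfl).app (rng_of bu_100 rfl)).app (rng_of bu_200 rfl)).app (rng_of bu_300 rfl)).app (rng_of bu_400 rfl)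
theorem be_0 : allL (fun k => (cBE dt) (Nat.add 0 k)) 100 = true := by decide +kernel
theorem be_100 : allL (fun k => (cBE dt) (Nat.add 100 k)) 100 = true := by decide +kernel
theorem be_200 : allL (fun k => (cBE dt) (Nat.add 200 k)) 17 = true := by decide +kernel
theorem be : Rng (cBE dt) 0 217 := ((rng_of (f := cBE dt) be_0 rfl).app (rng_of be_100 rfl)).app (rng_of be_200 rfl)
theorem zt : tbn 147573952589676412928 dt.ZT = true := by decide +kernel

end Pool.Agent.Work.MP_f94384_co.Big.R3
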