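import Pool.Agent.Work.MP_f94384_co.Big.R3.Dat
import Pool.Agent.Work.MP_f94384_co.Big.R3.K0
import Pool.Agent.Work.MP_f94384_co.Big.Rng
set_option autoImplicit false
set_option maxRecDepth 1000000
set_option linter.all false

/-! Checks of the certificate (generated) -/

namespace Pool.Agent.Work.MP_f94384_co.Big.R3

theorem x0_0 : allL (fun k => (fun k => ckX 4 0 1 (tl 1) 1 tS1 (get tS0 k) (get tX0 k)) (Nat.add 0 k)) 1 = true := by decide +kernel
theorem x0 : Rng (fun k => ckX 4 0 1 (tl 1) 1 tS1 (get tS0 k) (get tX0 k)) 0 1 := rng_of (f := fun k => ckX 4 0 1 (tl 1) 1 tS1 (get tS0 k) (get tX0 k)) x0_0 rfl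
theorem x1_0 : allL (fun k => (fun k => ckX 4 1 2 (tl 2) 2 tS2 (get tS1 k) (get tX1 k)) (Nat.add 0 k)) 1 = true := by decide +kernel
theorem x1 : Rng (fun k => ckX 4 1 2 (tl 2) 2 tS2 (get tS1 k) (get tX1 k)) 0 1 := rng_of (f := fun k => ckX 4 1 2 (tl 2) 2 tS2 (get tS1 k) (get tX1 k)) x1_0 rfl
theorem x2_0 : allL (fun k => (fun k => ckX 4 2 3 (tl 3) 4 tS3 (get tS2 k) (get tX2 k)) (Nat.add 0 k)) 2 = true := by decide +kernel
theorem x2 : Rng (fun k => ckX 4 2 3 (tl 3) 4 tS3 (get tS2 k) (get tX2 k)) 0 2 := rng_of (f := fun k => ckX 4 2 3 (tl 3) 4 tS3 (get tS2 k) (get tX2 k)) x2_0 rfl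
theorem x3_0 : allL (fun k => (fun k => ckX 4 3 4 (tl 4) 10 tS4 (get tS3 k) (get tX3 k)) (Nat.add 0 k)) 4 = true := by decide +kernel
theorem x3 : Rng (fun k => ckX 4 3 4 (tl 4) 10 tS4 (get tS3 k) (get tX3 k)) 0 4 := rng_of (f := fun k => ckX 4 3 4 (tl 4) 10 tS4 (get tS3 k) (get tX3 k)) x3_0 rfl
theorem x4_0 : allL (fun k => (fun k => ckX 4 4 5 (tl 5) 29 tR2 (get tS4 k) (get tX4 k)) (Nat.add 0 k)) 10 = true := by decide +kernel
theorem x4 : Rng (fun k => ckX 4 4 5 (tl 5) 29 tR2 (get tS4 k) (get tX4 k)) 0 10 := rng_of (f := fun k => ckX 4 4 5 (tl 5) 29 tR2 (get tS4 k) (get tX4 k)) x4_0 rfl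
theorem x5_0 : allL (fun k => (fun k => ckX 4 5 6 (tl 6) 120 tR1 (get tR2 k) (get tX5 k)) (Nat.add 0 k)) 20 = true := by decide +kernel
theorem x5_20 : allL (fun k => (fun k => ckX 4 5 6 (tl 6) 120 tR1 (get tR2 k) (get tX5 k)) (Nat.add 20 k)) 9 = true := by decide +kernel
theorem x5 : Rng (fun k => ckX 4 5 6 (tl 6) 120 tR1 (get tR2 k) (get tX5 k)) 0 29 := (rng_of (f := fun k => ckX 4 5 6 (tl 6) 120 tR1 (get tR2 k) (get tX5 k)) x5_0 rfl).app (rng_of x5_20 rfl)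
theorem a0_0 : allL (fun k => (fun k => ckA 0 (get tS0 k)) (Nat.add 0 k)) 1 = true := by decide +kernel
theorem a0 : Rng (fun k => ckA 0 (get tS0 k)) 0 1 := rng_of (f := fun k => ckA 0 (get tS0 k)) a0_0 rfl
theorem a1_0 : allL (fun k => (fun k => ckA 1 (get tS1 k)) (Nat.add 0 k)) 1 = true := by decide +kernel
theorem a1 : Rng (fun k => ckA 1 (get tS1 k)) 0 1 := rng_of (f := fun k => ckA 1 (get tS1 k)) a1_0 rfl
theorem a2_0 : allL (fun k => (fun k => ckA 2 (get tS2 k)) (Nat.add 0 k)) 2 = true := by decide +kernel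
theorem a2 : Rng (fun k => ckA 2 (get tS2 k)) 0 2 := rng_of (f := fun k => ckA 2 (get tS2 k)) a2_0 rfl
theorem a3_0 : allL (fun k => (fun k => ckA 3 (get tS3 k)) (Nat.add 0 k)) 4 = true := by decide +kernel
theorem a3 : Rng (fun k => ckA 3 (get tS3 k)) 0 4 := rng_of (f := fun k => ckA 3 (get tS3 k)) a3_0 rfl
theorem a4_0 : allL (fun k => (fun k => ckA 4 (get tS4 k)) (Nat.add 0 k)) 10 = true := by decide +kernel
theorem a4 : Rng (fun k => ckA 4 (get tS4 k)) 0 10 := rng_of (f := fun k => ckA 4 (get tS4 k)) a4_0 rfl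
theorem a5_0 : allL (fun k => (fun k => ckA 5 (get tR2 k)) (Nat.add 0 k)) 29 = true := by decide +kernel
theorem a5 : Rng (fun k => ckA 5 (get tR2 k)) 0 29 := rng_of (f := fun k => ckA 5 (get tR2 k)) a5_0 rfl
theorem a6_0 : allL (fun k => (fun k => ckA 6 (get tR1 k)) (Nat.add 0 k)) 120 = true := by decide +kernel
theorem a6 : Rng (fun k => ckA 6 (get tR1 k)) 0 120 := rng_of (f := fun k => ckA 6 (get tR1 k)) a6_0 rfl
theorem a7_0 : allL (fun k => (fun k => ckA 7 (get tR0 k)) (Nat.add 0 k)) 200 = true := by decide +kernel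
theorem a7_200 : allL (fun k => (fun k => ckA 7 (get tR0 k)) (Nat.add 200 k)) 200 = true := by decide +kernel
theorem a7_400 : allL (fun k => (fun k => ckA 7 (get tR0 k)) (Nat.add 400 k)) 200 = true := by decide +kernel
theorem a7_600 : allL (fun k => (fun k => ckA 7 (get tR0 k)) (Nat.add 600 k)) 85 = true := by decide +kernel
theorem a7 : Rng (fun k => ckA 7 (get tR0 k)) 0 685 := (((rng_of (f := fun k => ckA 7 (get tR0 k)) a7_0 rfl).app (rng_of a7_200 rfl)).app (rng_of a7_400 rfl)).app (rng_of a7_600 rfl)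

end Pool.Agent.Work.MP_f94384_co.Big.R3
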