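import Pool.Agent.Work.MP_f94384_co.Big.R3.Dat
import Pool.Agent.Work.MP_f94384_co.Big.R3.K0
import Pool.Agent.Work.MP_f94384_co.Big.Rng
set_option autoImplicit false
set_option maxRecDepth 1000000
set_option linter.all false

/-! Checks of the certificate (generated) -/

namespace Pool.Agent.Work.MP_f94384_co.Big.R3

theorem x6_0_0 : allL (fun k => (fun k => ckX 4 6 7 (tl 7) 685 tR0 (get tR1 k) (get tX6 k)) (Nat.add 0 k)) 5 = true := by decide +kernel
theorem x6_0_5 : allL (fun k => (fun k => ckX 4 6 7 (tl 7) 685 tR0 (get tR1 k) (get tX6 k)) (Nat.add 5 k)) 5 = true := by decide +kernel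
theorem x6_0_10 : allL (fun k => (fun k => ckX 4 6 7 (tl 7) 685 tR0 (get tR1 k) (get tX6 k)) (Nat.add 10 k)) 5 = true := by decide +kernel
theorem x6_0_15 : allL (fun k => (fun k => ckX 4 6 7 (tl 7) 685 tR0 (get tR1 k) (get tX6 k)) (Nat.add 15 k)) 5 = true := by decide +kernel
theorem x6_0_20 : allL (fun k => (fun k => ckX 4 6 7 (tl 7) 685 tR0 (get tR1 k) (get tX6 k)) (Nat.add 20 k)) 5 = true := by decide +kernel
theorem x6_0_25 : allL (fun k => (fun k => ckX 4 6 7 (tl 7) 685 tR0 (get tR1 k) (get tX6 k)) (Nat.add 25 k)) 5 = true := by decide +kernel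
theorem x6_0_30 : allL (fun k => (fun k => ckX 4 6 7 (tl 7) 685 tR0 (get tR1 k) (get tX6 k)) (Nat.add 30 k)) 5 = true := by decide +kernel
theorem x6_0_35 : allL (fun k => (fun k => ckX 4 6 7 (tl 7) 685 tR0 (get tR1 k) (get tX6 k)) (Nat.add 35 k)) 5 = true := by decide +kernel
theorem x6_0 : Rng (fun k => ckX 4 6 7 (tl 7) 685 tR0 (get tR1 k) (get tX6 k)) 0 40 := (((((((rng_of (f := fun k => ckX 4 6 7 (tl 7) 685 tR0 (get tR1 k) (get tX6 k)) x6_0_0 rfl).app (rng_of x6_0_5 rfl)).app (rng_of x6_0_10 rfl)).app (rng_of x6_0_15 rfl)).app (rng_of x6_0_20 rfl)).app (rng_of x6_0_25 rfl)).app (rng_of x6_0_30 rfl)).app (rng_of x6_0_35 rfl)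

end Pool.Agent.Work.MP_f94384_co.Big.R3
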