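import Pool.Agent.Work.MP_f94384_co.Big.R3.Dat
import Pool.Agent.Work.MP_f94384_co.Big.R3.K0
import Pool.Agent.Work.MP_f94384_co.Big.Rng
set_option autoImplicit false
set_option maxRecDepth 1000000
set_option linter.all false

/-! Checks of the certificate (generated) -/

namespace Pool.Agent.Work.MP_f94384_co.Big.R3

theorem x6_1_40 : allL (fun k => (fun k => ckX 4 6 7 (tl 7) 685 tR0 (get tR1 k) (get tX6 k)) (Nat.add 40 k)) 5 = true := by decide +kernel
theorem x6_1_45 : allL (fun k => (fun k => ckX 4 6 7 (tl 7) 685 tR0 (get tR1 k) (get tX6 k)) (Nat.add 45 k)) 5 = true := by decide +kernel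
theorem x6_1_50 : allL (fun k => (fun k => ckX 4 6 7 (tl 7) 685 tR0 (get tR1 k) (get tX6 k)) (Nat.add 50 k)) 5 = true := by decide +kernel
theorem x6_1_55 : allL (fun k => (fun k => ckX 4 6 7 (tl 7) 685 tR0 (get tR1 k) (get tX6 k)) (Nat.add 55 k)) 5 = true := by decide +kernel
theorem x6_1_60 : allL (fun k => (fun k => ckX 4 6 7 (tl 7) 685 tR0 (get tR1 k) (get tX6 k)) (Nat.add 60 k)) 5 = true := by decide +kernel
theorem x6_1_65 : allL (fun k => (fun k => ckX 4 6 7 (tl 7) 685 tR0 (get tR1 k) (get tX6 k)) (Nat.add 65 k)) 5 = true := by decide +kernel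
theorem x6_1_70 : allL (fun k => (fun k => ckX 4 6 7 (tl 7) 685 tR0 (get tR1 k) (get tX6 k)) (Nat.add 70 k)) 5 = true := by decide +kernel
theorem x6_1_75 : allL (fun k => (fun k => ckX 4 6 7 (tl 7) 685 tR0 (get tR1 k) (get tX6 k)) (Nat.add 75 k)) 5 = true := by decide +kernel
theorem x6_1 : Rng (fun k => ckX 4 6 7 (tl 7) 685 tR0 (get tR1 k) (get tX6 k)) 40 80 := (((((((rng_of (f := fun k => ckX 4 6 7 (tl 7) 685 tR0 (get tR1 k) (get tX6 k)) x6_1_40 rfl).app (rng_of x6_1_45 rfl)).app (rng_of x6_1_50 rfl)).app (rng_of x6_1_55 rfl)).app (rng_of x6_1_60 rfl)).app (rng_of x6_1_65 rfl)).app (rng_of x6_1_70 rfl)).app (rng_of x6_1_75 rfl)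

end Pool.Agent.Work.MP_f94384_co.Big.R3
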