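import Pool.Agent.Work.MP_f94384_co.Big.R3.D0
import Pool.Agent.Work.MP_f94384_co.Big.R3.BU
import Pool.Agent.Work.MP_f94384_co.Big.R3.BE
import Pool.Agent.Work.MP_f94384_co.Big.R3.DP
import Pool.Agent.Work.MP_f94384_co.Big.R3.CG
set_option autoImplicit false

/-! Data of the certificate (generated) -/

namespace Pool.Agent.Work.MP_f94384_co.Big.R3

/-- the certificate -/
noncomputable def dt : Dt where
  N := 7
  s := 4
  m := 3
  q := 1
  W := 80
  c := 79
  o := 66
  Z := 96
  c2 := 90
  o2 := 86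
  v := 0
  nR1 := 120
  nR2 := 29
  nBU := 427
  nBE := 217
  NU := 977540923407484489467871235911967298667823298547218615109878390468112
  NE := 509237806
  NV := 0
  R1 := tR1
  R2 := tR2
  TU := tTU
  TE := tTE
  BU := tBU
  BE := tBE
  FU := tFU
  FE := tFE
  WU := tWU
  WE := tWE
  BV := .L 0
  FV := .L 0
  WV := .L 0
  HU := tHU
  HE := tHE
  HV := .L 0
  C0 := tC0
  DT := tDT
  PT := tPT
  ZT := tZT
  R0 := tR0
  C1 := tC1
  C2 := tC2

end Pool.Agent.Work.MP_f94384_co.Big.R3
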