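import Pool.Agent.Work.MP_f94384_co.Big.R3.Dat
import Pool.Agent.Work.MP_f94384_co.Big.Rng
set_option autoImplicit false
set_option maxRecDepth 1000000
set_option linter.all false

/-! Checks of the certificate (generated) -/

namespace Pool.Agent.Work.MP_f94384_co.Big.R3

theorem g19_650 : allL (fun k => (cG dt) (Nat.add 650 k)) 5 = true := by decide +kernel
theorem g19_655 : allL (fun k => (cG dt) (Nat.add 655 k)) 5 = true := by decide +kernel
theorem g19_660 : allL (fun k => (cG dt) (Nat.add 660 k)) 5 = true := by decide +kernel
theorem g19_665 : allL (fun k => (cG dt) (Nat.add 665 k)) 5 = true := by decide +kernel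
theorem g19_670 : allL (fun k => (cG dt) (Nat.add 670 k)) 5 = true := by decide +kernel
theorem g19_675 : allL (fun k => (cG dt) (Nat.add 675 k)) 5 = true := by decide +kernel
theorem g19_680 : allL (fun k => (cG dt) (Nat.add 680 k)) 5 = true := by decide +kernel
theorem g19 : Rng (cG dt) 650 685 := ((((((rng_of (f := cG dt) g19_650 rfl).app (rng_of g19_655 rfl)).app (rng_of g19_660 rfl)).app (rng_of g19_665 rfl)).app (rng_of g19_670 rfl)).app (rng_of g19_675 rfl)).app (rng_of g19_680 rfl)

end Pool.Agent.Work.MP_f94384_co.Big.R3
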