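import Pool.Agent.Work.MP_f94384_co.Big.R3.Dat
import Pool.Agent.Work.MP_f94384_co.Big.Rng
set_option autoImplicit false
set_option maxRecDepth 1000000
set_option linter.all false

/-! Checks of the certificate (generated) -/

namespace Pool.Agent.Work.MP_f94384_co.Big.R3

theorem g9_308 : allL (fun k => (cG dt) (Nat.add 308 k)) 5 = true := by decide +kernel
theorem g9_313 : allL (fun k => (cG dt) (Nat.add 313 k)) 5 = true := by decide +kernel
theorem g9_318 : allL (fun k => (cG dt) (Nat.add 318 k)) 5 = true := by decide +kernel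
theorem g9_323 : allL (fun k => (cG dt) (Nat.add 323 k)) 5 = true := by decide +kernel
theorem g9_328 : allL (fun k => (cG dt) (Nat.add 328 k)) 5 = true := by decide +kernel
theorem g9_333 : allL (fun k => (cG dt) (Nat.add 333 k)) 5 = true := by decide +kernel
theorem g9_338 : allL (fun k => (cG dt) (Nat.add 338 k)) 4 = true := by decide +kernel
theorem g9 : Rng (cG dt) 308 342 := ((((((rng_of (f := cG dt) g9_308 rfl).app (rng_of g9_313 rfl)).app (rng_of g9_318 rfl)).app (rng_of g9_323 rfl)).app (rng_of g9_328 rfl)).app (rng_of g9_333 rfl)).app (rng_of g9_338 rfl)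

end Pool.Agent.Work.MP_f94384_co.Big.R3
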